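import Pool.Agent.Helper35.CP.CHAIN

/-! # CP-COMM -/

open scoped ComplexOrder

namespace Pool.Agent.Helper35.CP

open Pool.Agent.Helper39.Uct Pool.Agent.Helper34.CP

section

variable {B : Type} [NonUnitalCStarAlgebra B]

/-- (N2) -/
theorem n2 {Z P : B} (h : Z * P * star P = 0) : Z * P = 0 := by
  have h1 : (Z * P) * star (Z * P) = 0 := by
    rw [star_mul, ← mul_assoc, h, zero_mul]
  exact CStarRing.mul_star_self_eq_zero_iff _ |>.1 h1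

/-- The commutator. -/
def cm (f c₁ c₂ : B) : B := (f * c₁ * f) * (f * c₂ * f) - (f * c₂ * f) * (f * c₁ * f)

theorem star_cm {f c₁ c₂ : B} (hf : star f = f) : star (cm f c₁ c₂) = cm f (star c₂) (star c₁) := by
  unfold cm
  simp only [star_sub, star_mul, hf, mul_assoc]

variable {E : ℕ → Submodule ℂ B} {e : B} {f : ℕ → B} {j : ℕ} {x : B}

theorem ll_cm (hE : Sys E) (hB : Bas E) (hD : Dat E e f j x) {m l : ℕ} (hml : m ≤ l) {c₁ c₂ : B}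
    (h₁ : c₁ ∈ FF E m) (h₂ : c₂ ∈ FF E m) {y : B} (hy : y ∈ E l) :
    cm (f 0) c₁ c₂ * y ∈ LL (f 0) (E l) := by
  have hf0 := f_mem hE hD 0
  have hb : ∀ c ∈ FF E m, ∀ y ∈ E l, c * (f 0 * y) ∈ E l := fun c hc y hy =>
    hB.ffE m l hml c hc _ (mul0 hE hf0 hy)
  have h3 : ∀ c ∈ FF E m, ∀ c' ∈ FF E m, (f 0 * c * f 0) * (f 0 * c' * f 0) * y ∈
      LL (f 0) (E l) := by
    intro c hc c' hc'
    have h4 : (f 0 * c * f 0) * (f 0 * c' * f 0) * y = f 0 * (c * (f 0 * (f 0 *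
        (c' * (f 0 * y))))) := by simp only [mul_assoc]
    rw [h4]
    exact ll_mem (hb c hc _ (mul0 hE hf0 (hb c' hc' y hy)))
  unfold cm
  rw [sub_mul]
  exact Submodule.sub_mem _ (h3 _ h₁ _ h₂) (h3 _ h₂ _ h₁)

/-- Step (1). -/
theorem cm_kill (hE : Sys E) (hB : Bas E) (hDK : S_DK) (hD : Dat E e f j x) {m k : ℕ}
    (hk : m ≤ k * j) {c₁ c₂ : B} (h₁ : c₁ ∈ FF E m) (h₂ : c₂ ∈ FF E m) :
    ∀ y ∈ LL (f 0) (E (k * j)), cm (f 0) c₁ c₂ * y = 0 := by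
  have hf0 := f_mem hE hD 0
  set Y := LL (f 0) (E (k * j)) with hY
  have hsub : ∀ y ∈ Y, y ∈ E (k * j) := ll_sub hE hf0
  have hcom := hDK B E hE e f j x hD k
  rw [← hY] at hcom
  have hbY : ∀ c ∈ FF E m, ∀ y ∈ Y, (f 0 * c * f 0) * y ∈ Y := by
    intro c hc y hy
    have h4 : (f 0 * c * f 0) * y = f 0 * (c * (f 0 * y)) := by simp only [mul_assoc]
    rw [h4]
    exact ll_mem (hB.ffE m _ hk c hc _ (mul0 hE hf0 (hsub y hy)))
  set b₁ := f 0 * c₁ * f 0 with hb₁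
  set b₂ := f 0 * c₂ * f 0 with hb₂
  have key : ∀ y₁ ∈ Y, ∀ y₂ ∈ Y, ∀ y₃ ∈ Y, ∀ y₄ ∈ Y,
      cm (f 0) c₁ c₂ * y₁ * star y₂ * y₃ * star y₄ = 0 := by
    intro y₁ g₁ y₂ g₂ y₃ g₃ y₄ g₄
    have e1 := hcom (b₂ * y₁) (hbY _ h₂ _ g₁) y₂ g₂ y₃ g₃ y₄ g₄
    have e2 := hcom (b₁ * y₃) (hbY _ h₁ _ g₃) y₄ g₄ (b₂ * y₁) (hbY _ h₂ _ g₁) y₂ g₂
    have e3 := hcom (b₁ * y₃) (hbY _ h₁ _ g₃) y₄ g₄ y₁ g₁ y₂ g₂
    have e4 := hcom y₃ g₃ y₄ g₄ y₁ g₁ y₂ g₂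
    have f1 : b₁ * b₂ * y₁ * star y₂ * y₃ * star y₄ = b₂ * b₁ * y₁ * star y₂ * y₃ * star y₄ := by
      calc b₁ * b₂ * y₁ * star y₂ * y₃ * star y₄
          = b₁ * ((b₂ * y₁) * star y₂ * (y₃ * star y₄)) := by simp only [mul_assoc]
        _ = b₁ * ((y₃ * star y₄) * ((b₂ * y₁) * star y₂)) := by rw [e1]
        _ = (b₁ * y₃ * star y₄) * (b₂ * y₁ * star y₂) := by simp only [mul_assoc]
        _ = (b₂ * y₁ * star y₂) * (b₁ * y₃ * star y₄) := e2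
        _ = b₂ * ((y₁ * star y₂) * (b₁ * y₃ * star y₄)) := by simp only [mul_assoc]
        _ = b₂ * ((b₁ * y₃ * star y₄) * (y₁ * star y₂)) := by rw [e3]
        _ = b₂ * (b₁ * ((y₃ * star y₄) * (y₁ * star y₂))) := by simp only [mul_assoc]
        _ = b₂ * (b₁ * ((y₁ * star y₂) * (y₃ * star y₄))) := by rw [e4]
        _ = _ := by simp only [mul_assoc]
    unfold cm
    rw [← hb₁, ← hb₂, sub_mul, sub_mul, sub_mul, sub_mul, f1, sub_self]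
  intro y hy
  have k1 : ∀ y₁ ∈ Y, ∀ y₂ ∈ Y, ∀ y₃ ∈ Y, cm (f 0) c₁ c₂ * y₁ * star y₂ * y₃ = 0 :=
    fun y₁ g₁ y₂ g₂ y₃ g₃ => n2 (key y₁ g₁ y₂ g₂ y₃ g₃ y₃ g₃)
  have k2 : ∀ y₁ ∈ Y, ∀ y₂ ∈ Y, cm (f 0) c₁ c₂ * y₁ * star y₂ = 0 := by
    intro y₁ g₁ y₂ g₂
    refine n2 ?_
    rw [star_star]
    exact k1 y₁ g₁ y₂ g₂ y₂ g₂
  exact n2 (k2 y hy y hy)

theorem cm_kill' (hE : Sys E) (hB : Bas E) (hDK : S_DK) (hD : Dat E e f j x) {m k : ℕ}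
    (hk : m ≤ k * j) {c₁ c₂ : B} (h₁ : c₁ ∈ FF E m) (h₂ : c₂ ∈ FF E m) :
    ∀ y ∈ E (k * j), cm (f 0) c₁ c₂ * y = 0 := by
  intro y hy
  have h3 : cm (f 0) c₁ c₂ * y ∈ LL (f 0) (E (k * j)) := ll_cm hE hB hD hk h₁ h₂ hy
  have h4 := cm_kill hE hB hDK hD hk (hB.ffStar m _ h₂) (hB.ffStar m _ h₁) _ h3
  rw [← star_cm (hD.sa 0)] at h4
  have h5 : star (cm (f 0) c₁ c₂ * y) * (cm (f 0) c₁ c₂ * y) = 0 := by
    rw [star_mul, mul_assoc, h4, mul_zero]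
  exact CStarRing.star_mul_self_eq_zero_iff _ |>.1 h5

/-- Step (2). -/
theorem cm_zero (hE : Sys E) (hB : Bas E) (hDK : S_DK) (hD : Dat E e f j x) {m l : ℕ}
    (hl : m < l) {c₁ c₂ : B} (h₁ : c₁ ∈ FF E m) (h₂ : c₂ ∈ FF E m) {w : B} (hw : w ∈ E l) :
    cm (f 0) c₁ c₂ * w = 0 := by
  by_contra hz0
  have hj := hD.pos
  have hz : cm (f 0) c₁ c₂ * w ∈ LL (f 0) (E l) := ll_cm hE hB hD hl.le h₁ h₂ hw
  obtain ⟨X, hX, -, hch⟩ := chain B E hE e f j x hD (l / j) 0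
  have hl' : l / j * j + l % j = l := by
    rw [mul_comm]
    exact Nat.div_add_mod l j
  obtain ⟨h3, h4⟩ := hch (l % j) _ (by rw [hl']; exact hz) hz0
  have h5 := hD.uu _ _ (ll_e hE hD _ _ _ h4) h3
  have hXx : X * x ∈ E ((l / j + 1) * j) := by
    have h6 : (l / j + 1) * j = l / j * j + j := by ring
    rw [h6]
    exact hE.mul _ _ X hX x hD.xm
  have h7 : m ≤ (l / j + 1) * j := by
    have h8 : l % j < j := Nat.mod_lt _ hj
    have h6 : (l / j + 1) * j = l / j * j + j := by ring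
    omega
  have h9 := cm_kill' hE hB hDK hD h7 (hB.ffStar m _ h₂) (hB.ffStar m _ h₁) _ hXx
  rw [← star_cm (hD.sa 0)] at h9
  apply h5
  set b := cm (f 0) c₁ c₂ with hb
  have h10 : star x * (star X * (b * w)) = 0 := by
    have h11 : star x * (star X * (b * w)) = star (star b * (X * x)) * w := by
      rw [star_mul, star_mul, star_star]
      simp only [mul_assoc]
    rw [h11, h9, star_zero, zero_mul]
  have h12 : star (star X * (b * w)) * x * (star X * (b * w)) =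
      star (star x * (star X * (b * w))) * (star X * (b * w)) := by
    rw [star_mul (star x), star_star]
  rw [h12, h10, star_zero, zero_mul]

end

theorem comm (hBAS : S_BAS) (hDK : S_DK) : S_COMM := by
  intro B _ E hE hN e f j x hD
  have hB := hBAS B E hE
  have hf0 := f_mem hE hD 0
  have hfF : ∀ m, f 0 ∈ FF E m := fun m => hB.ffMono 0 m (Nat.zero_le _) (by rw [hB.ffZero]; exact hf0)
  have hcm : ∀ m, ∀ c₁ ∈ FF E m, ∀ c₂ ∈ FF E m, cm (f 0) c₁ c₂ = 0 := by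
    intro m c₁ h₁ c₂ h₂
    have hb : ∀ c ∈ FF E m, f 0 * c * f 0 ∈ FF E m := fun c hc =>
      hB.ffMul m _ (hB.ffMul m _ (hfF m) _ hc) _ (hfF m)
    refine hN m _ ?_ fun l hl y hy => ?_
    · unfold cm
      exact Submodule.sub_mem _ (hB.ffMul m _ (hb _ h₁) _ (hb _ h₂))
        (hB.ffMul m _ (hb _ h₂) _ (hb _ h₁))
    · refine ⟨cm_zero hE hB hDK hD hl h₁ h₂ hy, ?_⟩
      rw [star_cm (hD.sa 0)]
      exact cm_zero hE hB hDK hD hl (hB.ffStar m _ h₂) (hB.ffStar m _ h₁) hy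
  -- density
  set S : Set B := {c | ∃ m, c ∈ FF E m} with hS
  have hdense : ∀ c ∈ BB E 0, c ∈ closure S := by
    intro c hc
    rw [Metric.mem_closure_iff]
    intro ε hε
    obtain ⟨m, z', hz', h⟩ := hB.apx0 c hc ε hε
    exact ⟨z', ⟨m, hz'⟩, by rwa [dist_eq_norm]⟩
  intro c₁ h₁ c₂ h₂
  have hcl : IsClosed {p : B × B | cm (f 0) p.1 p.2 = 0} := by
    refine isClosed_eq ?_ continuous_const
    unfold cm
    fun_prop
  have hmem : (c₁, c₂) ∈ closure (S ×ˢ S) := by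
    rw [closure_prod_eq]
    exact ⟨hdense c₁ h₁, hdense c₂ h₂⟩
  have h3 : cm (f 0) c₁ c₂ = 0 := by
    refine closure_minimal ?_ hcl hmem
    rintro ⟨a, b⟩ ⟨⟨m, ha⟩, ⟨m', hb⟩⟩
    exact hcm (max m m') a (hB.ffMono _ _ (le_max_left _ _) ha) b
      (hB.ffMono _ _ (le_max_right _ _) hb)
  exact sub_eq_zero.1 h3

end Pool.Agent.Helper35.CP
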