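import Pool.Agent.Helper35.CP.CHAIN

/-! # CP-DK: commutation on the levels `k j` -/

open scoped ComplexOrder

namespace Pool.Agent.Helper35.CP

open Pool.Agent.Helper39.Uct Pool.Agent.Helper34.CP

theorem dk (hK1 : S_K1) : S_DK := by
  intro B _ E hE e f j x hD k
  obtain ⟨X, hX, ⟨X', hX', hXX⟩, hch⟩ := chain B E hE e f j x hD k 0
  obtain ⟨v, hv, hf⟩ := hD.fac (0 + k + 1)
  have hf0 := f_mem hE hD 0
  have hsub : ∀ y ∈ LL (f 0) (E (k * j)), y ∈ E (k * j) := ll_sub hE hf0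
  have hXs : star X = f (0 + k + 1) * star X' := by
    rw [hXX, star_mul, hD.sa]
  have hsand : ∀ y₁ ∈ LL (f 0) (E (k * j)), ∀ y₂ ∈ LL (f 0) (E (k * j)),
      ∃ u ∈ E 0, star X * y₁ * star y₂ * X = e * u * e := by
    intro y₁ h₁ y₂ h₂
    refine ⟨v * (e * ((star X' * y₁) * ((star y₂ * X') * (e * v)))), ?_, ?_⟩
    · exact mul0 hE hv (mul0 hE hD.eA (mul0 hE (left0 hE hX' (hsub _ h₁))
        (mul0 hE (left0 hE (hsub _ h₂) hX') (mul0 hE hD.eA hv))))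
    · rw [hXs, hXX, hf]
      simp only [mul_assoc]
  refine hK1 B (LL (f 0) (E (k * j))) X (ll_closed _ _) ?_ ?_ ?_ ?_ ?_
  · intro y₁ h₁ y₂ h₂ y₃ h₃
    rw [mul_assoc]
    exact ll_mul0 hE (left0 hE (hsub _ h₂) (hsub _ h₃)) _ h₁
  · intro y₁ h₁ y₂ h₂
    exact ll_mul0 hE (left0 hE (hsub _ h₂) hX) _ h₁
  · intro y₁ h₁ y₂ h₂
    exact ll_mul0 hE (left0 hE hX (hsub _ h₂)) _ h₁
  · intro y₁ h₁ y₂ h₂ y₃ h₃ y₄ h₄
    obtain ⟨u, hu, h5⟩ := hsand y₁ h₁ y₂ h₂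
    obtain ⟨u', hu', h6⟩ := hsand y₃ h₃ y₄ h₄
    rw [h5, h6]
    exact hD.ab u hu u' hu'
  · intro y hy hy0
    exact (hch 0 y (by rwa [add_zero]) hy0).1

end Pool.Agent.Helper35.CP
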