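import Pool.Agent.Helper34.CP.Goals

/-! # CP-FN: local units by functional calculus -/

open scoped ComplexOrder

namespace Pool.Agent.Helper35.CP

open Pool.Agent.Helper39.Uct Pool.Agent.Helper34.CP Pool.Agent.Helper10.Uct

/-- The cut-off functions. -/
noncomputable def gg (a a' s : ℝ) : ℝ := max 0 (min 1 ((s ^ 2 - a') / (a - a')))

theorem gg_cont (a a' : ℝ) : Continuous (gg a a') := by
  unfold gg
  fun_prop

theorem gg_nonneg (a a' s : ℝ) : 0 ≤ gg a a' s := le_max_left _ _

theorem gg_le_one (a a' s : ℝ) : gg a a' s ≤ 1 := max_le (by norm_num) (min_le_left _ _)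

theorem gg_zero {a a' s : ℝ} (h : a' < a) (hs : s ^ 2 ≤ a') : gg a a' s = 0 := by
  unfold gg
  refine max_eq_left ((min_le_right _ _).trans ?_)
  exact div_nonpos_of_nonpos_of_nonneg (by linarith) (by linarith)

theorem gg_one {a a' s : ℝ} (h : a' < a) (hs : a ≤ s ^ 2) : gg a a' s = 1 := by
  unfold gg
  have h1 : 1 ≤ (s ^ 2 - a') / (a - a') := by
    rw [le_div_iff₀ (by linarith)]
    linarith
  rw [min_eq_left h1, max_eq_right (by norm_num)]

theorem fn : S_FN := by
  intro B _ V hV hmul hstar e he hsa he0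
  have hcl : IsClosed ((subalg V hmul hstar : NonUnitalStarSubalgebra ℂ B) : Set B) := hV
  have hmem : ∀ f : ℝ → ℝ, cfcₙ f e ∈ V := by
    intro f
    have : cfcₙ f e ∈ subalg V hmul hstar :=
      cfcₙ_mem (𝕜 := ℝ) (𝕜' := ℂ) (s := subalg V hmul hstar) f
        (show e ∈ subalg V hmul hstar from he)
    exact this
  have hsa' : IsSelfAdjoint e := hsa
  have hn : 0 < ‖e‖ := norm_pos_iff.2 he0
  set c : ℝ := ‖e‖ ^ 2 with hc
  have hc0 : 0 < c := by positivity
  set a : ℕ → ℝ := fun i => c / ((i : ℝ) + 2) with ha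
  have ha0 : ∀ i, 0 < a i := fun i => by
    simp only [ha]
    positivity
  have hai : ∀ i, a (i + 1) < a i := by
    intro i
    simp only [ha]
    refine div_lt_div_of_pos_left hc0 (by positivity) ?_
    push_cast
    linarith
  have hac : ∀ i, a i < c := by
    intro i
    simp only [ha]
    rw [div_lt_iff₀ (by positivity)]
    have : (0 : ℝ) ≤ i := Nat.cast_nonneg i
    nlinarith
  set G : ℕ → ℝ → ℝ := fun i => gg (a i) (a (i + 1)) with hG
  have hGc : ∀ i, Continuous (G i) := fun i => gg_cont _ _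
  have hG0 : ∀ i, G i 0 = 0 := fun i => gg_zero (hai i) (by
    have := ha0 (i + 1)
    simpa using this.le)
  set w : ℕ → ℝ → ℝ := fun i s => G i s / max (s ^ 2) (a (i + 1)) with hw
  have hwc : ∀ i, Continuous (w i) := by
    intro i
    refine (hGc i).div (by fun_prop) fun s => ?_
    exact (lt_of_lt_of_le (ha0 (i + 1)) (le_max_right _ _)).ne'
  have hw0 : ∀ i, w i 0 = 0 := fun i => by
    simp only [hw]
    rw [hG0, zero_div]
  have hGw : ∀ i s, s * w i s * s = G i s := by
    intro i s
    simp only [hw]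
    by_cases h : s ^ 2 ≤ a (i + 1)
    · have h1 : G i s = 0 := gg_zero (hai i) h
      rw [h1, zero_div, mul_zero, zero_mul]
    · push Not at h
      rw [max_eq_left h.le]
      have h2 : s ≠ 0 := by
        rintro rfl
        have := ha0 (i + 1)
        norm_num at h
        linarith
      field_simp
  refine ⟨fun i => cfcₙ (G i) e, fun i => ⟨?_, ?_, ?_, cfcₙ (w i) e, hmem _, ?_⟩⟩
  · exact (IsSelfAdjoint.cfcₙ (R := ℝ) (f := G i) (a := e))
  · intro h0
    have h1 : cfcₙ (fun s => s * G i s) e = 0 := by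
      rw [cfcₙ_mul (fun s => s) (G i) e continuousOn_id rfl (hGc i).continuousOn (hG0 i)]
      change cfcₙ (G i) e = 0 at h0
      rw [h0, mul_zero]
    have h2 : e = cfcₙ (fun s => s - s * G i s) e := by
      rw [cfcₙ_sub (fun s => s) (fun s => s * G i s) e continuousOn_id rfl
        (continuous_id.mul (hGc i)).continuousOn (by simp), h1, sub_zero, cfcₙ_id' ℝ e]
    have h3 : ‖e‖ ≤ Real.sqrt (a i) := by
      conv_lhs => rw [h2]
      refine norm_cfcₙ_le fun s _ => ?_
      have h4 : s - s * G i s = s * (1 - G i s) := by ring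
      rw [h4, norm_mul]
      have h5 : 0 ≤ 1 - G i s := by
        have := gg_le_one (a i) (a (i + 1)) s
        linarith
      have h6 : 1 - G i s ≤ 1 := by
        have := gg_nonneg (a i) (a (i + 1)) s
        linarith
      by_cases h : a i ≤ s ^ 2
      · have h7 : G i s = 1 := gg_one (hai i) h
        rw [h7, sub_self, norm_zero, mul_zero]
        exact Real.sqrt_nonneg _
      · push Not at h
        rw [Real.norm_of_nonneg h5, Real.norm_eq_abs]
        calc |s| * (1 - G i s) ≤ |s| * 1 := by gcongr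
          _ = |s| := mul_one _
          _ ≤ Real.sqrt (a i) := Real.abs_le_sqrt h.le
    have h8 : ‖e‖ ^ 2 ≤ a i := by
      calc ‖e‖ ^ 2 ≤ Real.sqrt (a i) ^ 2 := by gcongr
        _ = a i := Real.sq_sqrt (ha0 i).le
    have h9 := hac i
    rw [hc] at h9
    linarith
  · change cfcₙ (G (i + 1)) e * cfcₙ (G i) e = cfcₙ (G i) e
    rw [← cfcₙ_mul (G (i + 1)) (G i) e (hGc _).continuousOn (hG0 _) (hGc i).continuousOn (hG0 i)]
    congr 1
    funext s
    by_cases h : s ^ 2 ≤ a (i + 1)
    · have h1 : G i s = 0 := gg_zero (hai i) h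
      rw [h1, mul_zero]
    · push Not at h
      have h1 : G (i + 1) s = 1 := gg_one (hai (i + 1)) h.le
      rw [h1, one_mul]
  · change cfcₙ (G i) e = e * cfcₙ (w i) e * e
    have h1 : cfcₙ (G i) e = cfcₙ (fun s => s * w i s * s) e := by
      congr 1
      funext s
      exact (hGw i s).symm
    rw [h1, cfcₙ_mul (fun s => s * w i s) (fun s => s) e
      (continuous_id.mul (hwc i)).continuousOn (by simp) continuousOn_id rfl,
      cfcₙ_mul (fun s => s) (w i) e continuousOn_id rfl (hwc i).continuousOn (hw0 i),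
      cfcₙ_id' ℝ e]

end Pool.Agent.Helper35.CP
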