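import Pool.Agent.Helper34.CP.Goals

/-! # CP-TOPZ: topologically `ℤ`-graded algebras -/

open scoped ComplexOrder

namespace Pool.Agent.Helper35.CP

open Pool.Agent.Helper39.Uct Pool.Agent.Helper34.CP Pool.Agent.Helper10.Uct

theorem topz (hMATZ : S_MATZ) : S_TOPZ := by
  intro 𝒞 h𝒞 B _ _ G hTop hQ
  have hPZ : PZ (Multiplicative ℤ) := by
    refine Pool.Agent.Helper51.Uct2.t_NP _ ?_ ?_
    · infer_instance
    · infer_instance
  have hGauge : Gauge G (MonoidHom.id (Multiplicative ℤ)) :=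
    (t_FE _ hPZ B G hTop).2 (MonoidHom.id _) Function.surjective_id
  obtain ⟨M, _, e, he, hsep⟩ := Pool.Agent.Helper49.Uct2.ms B
  have hcl : IsClosed (((ASpan G (MonoidHom.id _) e).topologicalClosure : Submodule ℂ M) :
    Set M) := Submodule.isClosed_topologicalClosure _
  have hmul : ∀ x ∈ (ASpan G (MonoidHom.id _) e).topologicalClosure,
      ∀ y ∈ (ASpan G (MonoidHom.id _) e).topologicalClosure,
      x * y ∈ (ASpan G (MonoidHom.id _) e).topologicalClosure := by
    apply closure_mul_mem _ _ _ hcl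
    rintro x ⟨i, j, q, hq, b, hb, rfl⟩ y ⟨k, l, q', hq', c, hc, rfl⟩
    by_cases hjk : j = k
    · subst hjk
      rw [he.mul]
      refine Submodule.le_topologicalClosure _ (Submodule.subset_span ?_)
      refine ⟨i, l, q * q', ?_, b * c, G.mul_mem _ _ _ _ hb hc, rfl⟩
      rw [map_mul, hq, hq', ← ofAdd_add]
      congr 1
      ring
    · rw [he.mul0 _ _ _ _ _ _ hjk]
      exact Submodule.zero_mem _
  have hstar : ∀ x ∈ (ASpan G (MonoidHom.id _) e).topologicalClosure,
      star x ∈ (ASpan G (MonoidHom.id _) e).topologicalClosure := by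
    apply closure_star_mem
    rintro x ⟨i, j, q, hq, b, hb, rfl⟩
    rw [he.star]
    refine ⟨j, i, q⁻¹, ?_, star b, G.star_mem _ b hb, rfl⟩
    rw [map_inv, hq, ← ofAdd_neg]
    congr 1
    ring
  obtain ⟨A, _, κ, hκi, hκr⟩ := exists_alg _ hcl hmul hstar
  have := Pool.Agent.Helper11.Uct2.separable_of_injective κ hκi
  have h1 : 𝒞 A := hMATZ 𝒞 h𝒞 B M G e he hQ A κ hκi hκr
  obtain ⟨α, j, hcross⟩ := t_CRZ _ B M G (MonoidHom.id _) hGauge e he A κ hκi hκr
  have h2 : 𝒞 M := h𝒞.crossZ A M α j hcross h1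
  obtain ⟨κ', _, hH, hF⟩ := Pool.Agent.Helper94.Uct2.cor B M e he
  exact (h𝒞.hered B M κ' hH hF).2 h2

end Pool.Agent.Helper35.CP
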