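import Pool.Agent.Helper34.CP.Goals

/-! # CP-CHAIN: the chain argument -/

open scoped ComplexOrder

namespace Pool.Agent.Helper35.CP

open Pool.Agent.Helper39.Uct Pool.Agent.Helper34.CP

section

variable {B : Type} [NonUnitalCStarAlgebra B]

/-- Induction over `LL e V`. -/
theorem ll_ind {e : B} {V : Submodule ℂ B} {p : B → Prop} (hp : IsClosed {z | p z})
    (h : ∀ v ∈ V, p (e * v)) : ∀ z ∈ LL e V, p z := by
  intro z hz
  have hz' : z ∈ closure ((V.map (LinearMap.mulLeft ℂ e) : Submodule ℂ B) : Set B) := hz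
  refine closure_minimal ?_ hp hz'
  rintro _ ⟨v, hv, rfl⟩
  exact h v hv

theorem ll_mem {e : B} {V : Submodule ℂ B} {v : B} (hv : v ∈ V) : e * v ∈ LL e V :=
  Submodule.le_topologicalClosure _ ⟨v, hv, rfl⟩

theorem ll_closed (e : B) (V : Submodule ℂ B) : IsClosed (LL e V : Set B) :=
  Submodule.isClosed_topologicalClosure _

theorem ll_fix {a e : B} {V : Submodule ℂ B} (h : a * e = e) : ∀ z ∈ LL e V, a * z = z := by
  refine ll_ind (isClosed_eq (continuous_const.mul continuous_id) continuous_id) fun v _ => ?_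
  rw [← mul_assoc, h]

variable {E : ℕ → Submodule ℂ B}

theorem mul0 (hE : Sys E) {n : ℕ} {a y : B} (ha : a ∈ E 0) (hy : y ∈ E n) : a * y ∈ E n := by
  have := hE.mul 0 n a ha y hy
  rwa [zero_add] at this

theorem mul0' (hE : Sys E) {n : ℕ} {a y : B} (ha : a ∈ E 0) (hy : y ∈ E n) : y * a ∈ E n := by
  have := hE.mul n 0 y hy a ha
  rwa [add_zero] at this

theorem left0 (hE : Sys E) {n : ℕ} {x y : B} (hx : x ∈ E n) (hy : y ∈ E n) :
    star x * y ∈ E 0 := by
  have := hE.left n 0 x hx y (by rwa [add_zero])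
  exact this

theorem ll_sub (hE : Sys E) {n : ℕ} {a : B} (ha : a ∈ E 0) : ∀ z ∈ LL a (E n), z ∈ E n :=
  ll_ind (hE.closed n) fun _ hv => mul0 hE ha hv

/-- `LL a (E n)` is stable under right multiplication by `E 0`. -/
theorem ll_mul0 (hE : Sys E) {n : ℕ} {a u : B} (hu : u ∈ E 0) :
    ∀ z ∈ LL a (E n), z * u ∈ LL a (E n) := by
  refine ll_ind ?_ fun v hv => ?_
  · exact (ll_closed a (E n)).preimage (continuous_id.mul continuous_const)
  · rw [mul_assoc]
    exact ll_mem (mul0' hE hu hv)

variable {e : B} {f : ℕ → B} {j : ℕ} {x : B}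

theorem f_mem (hE : Sys E) (hD : Dat E e f j x) (i : ℕ) : f i ∈ E 0 := by
  obtain ⟨v, hv, h⟩ := hD.fac i
  rw [h]
  exact mul0 hE (mul0 hE hD.eA hv) hD.eA

theorem ll_e (hE : Sys E) (hD : Dat E e f j x) (i n : ℕ) : ∀ z ∈ LL (f i) (E n), z ∈ LL e (E n) := by
  obtain ⟨v, hv, h⟩ := hD.fac i
  refine ll_ind (ll_closed e (E n)) fun w hw => ?_
  rw [h, mul_assoc, mul_assoc]
  exact ll_mem (mul0 hE hv (mul0 hE hD.eA hw))

end

theorem chain : S_CHAIN := by
  intro B _ E hE e f j x hD s
  induction s with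
  | zero =>
    intro i
    have h1 := hD.step (i + 1)
    refine ⟨f (i + 1), ?_, ⟨f (i + 2), ?_, ?_⟩, ?_⟩
    · rw [zero_mul]
      exact f_mem hE hD _
    · rw [zero_mul]
      exact f_mem hE hD _
    · exact h1.symm
    · intro r z hz hz0
      rw [zero_mul, zero_add] at hz
      have h2 : star (f (i + 1)) * z = z := by
        rw [hD.sa]
        exact ll_fix (hD.step i) z hz
      rw [h2]
      exact ⟨hz0, hz⟩
  | succ s ih =>
    intro i
    obtain ⟨X1, hX1, ⟨X1', hX1', hXX⟩, hch⟩ := ih (i + 1)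
    have hsj : (s + 1) * j = j + s * j := by ring
    have hx : x * f (i + 1) ∈ E j := mul0' hE (f_mem hE hD _) hD.xm
    refine ⟨x * f (i + 1) * X1, ?_, ⟨x * f (i + 1) * X1', ?_, ?_⟩, ?_⟩
    · rw [hsj]
      exact hE.mul j (s * j) _ hx _ hX1
    · rw [hsj]
      exact hE.mul j (s * j) _ hx _ hX1'
    · have h1 : i + (s + 1) + 1 = i + 1 + s + 1 := by ring
      rw [h1, hXX]
      simp only [mul_assoc]
    · intro r z hz hz0
      have hzE : z ∈ E (j + (s * j + r)) := by
        have h2 : (s + 1) * j + r = j + (s * j + r) := by ring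
        rw [← h2]
        exact ll_sub hE (f_mem hE hD i) z hz
      have hxz : star x * z ∈ E (s * j + r) := hE.left j (s * j + r) x hD.xm z hzE
      have hfix : f (i + 1) * z = z := ll_fix (hD.step i) z hz
      have huu := hD.uu _ z (ll_e hE hD i _ z hz) hz0
      have hz'0 : f (i + 1) * (star x * z) ≠ 0 := by
        intro h0
        apply huu
        have h3 : star z * x * z = star (f (i + 1) * (star x * z)) * z := by
          rw [star_mul, star_mul, star_star, hD.sa, mul_assoc (star z * x), hfix]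
        rw [h3, h0, star_zero, zero_mul]
      have hz' : f (i + 1) * (star x * z) ∈ LL (f (i + 1)) (E (s * j + r)) := ll_mem hxz
      have h4 := hch r _ hz' hz'0
      have h5 : star (x * f (i + 1) * X1) * z = star X1 * (f (i + 1) * (star x * z)) := by
        rw [star_mul, star_mul, hD.sa]
        simp only [mul_assoc]
      have h6 : i + (s + 1) = i + 1 + s := by ring
      rw [h5, h6]
      exact h4

end Pool.Agent.Helper35.CP
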